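import Pool.Agent.BEF.Stmts

/-!
# Squad BEF, module REZ: the equation in one degree
-/

namespace Pool.Agent.BEF.H50

open Set Filter Topology MeasureTheory
open scoped InnerProductSpace
open Pool.Agent.BE01 Pool.Agent.BEF

noncomputable section

/-- The trigonometric factor. -/
def tg (a b : ℝ) (j : ℕ) (ψ : ℝ) : ℝ := a * Real.cos (j * ψ) + b * Real.sin (j * ψ)

lemma tg_der (a b : ℝ) (j : ℕ) (ψ : ℝ) : HasDerivAt (tg a b j) (tg (j * b) (-(j * a)) j ψ) ψ := by
  have h0 : HasDerivAt (fun ψ : ℝ => (j : ℝ) * ψ) (j : ℝ) ψ := by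
    simpa using (hasDerivAt_id ψ).const_mul (j : ℝ)
  have h1 := (h0.cos.const_mul a).add (h0.sin.const_mul b)
  refine h1.congr_deriv ?_
  unfold tg
  ring

lemma tg_cont (a b : ℝ) (j : ℕ) : Continuous (tg a b j) := by
  unfold tg
  fun_prop

lemma tg_per (a b : ℝ) (j : ℕ) : tg a b j (2 * Real.pi) = tg a b j 0 := by
  unfold tg
  have h1 : Real.cos (j * (2 * Real.pi)) = 1 := Real.cos_nat_mul_two_pi j
  have h2 : Real.sin (j * (2 * Real.pi)) = 0 := by
    have := Real.sin_nat_mul_pi (2 * j)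
    rw [← this]
    congr 1
    push_cast
    ring
  rw [h1, h2]
  simp

/-- Orthogonality. -/
lemma tg_orth (a b α β : ℝ) (j : ℕ) (hj : j ≠ 1) :
    ∫ ψ in (0 : ℝ)..(2 * Real.pi), tg a b j ψ * tg α β 1 ψ = 0 := by
  have hd : ∀ ψ : ℝ, HasDerivAt (fun ψ => tg (j * b) (-(j * a)) j ψ * tg α β 1 ψ -
      tg a b j ψ * tg β (-α) 1 ψ) ((1 - (j : ℝ) ^ 2) * (tg a b j ψ * tg α β 1 ψ)) ψ := by
    intro ψ
    have h := ((tg_der (j * b) (-(j * a)) j ψ).mul (tg_der α β 1 ψ)).sub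
      ((tg_der a b j ψ).mul (tg_der β (-α) 1 ψ))
    refine h.congr_deriv ?_
    unfold tg
    push_cast
    ring
  have h1 := intervalIntegral.integral_eq_sub_of_hasDerivAt (a := 0) (b := 2 * Real.pi)
    (fun ψ _ => hd ψ) ((continuous_const.mul ((tg_cont a b j).mul
      (tg_cont α β 1))).intervalIntegrable _ _)
  rw [intervalIntegral.integral_const_mul, tg_per, tg_per, tg_per, tg_per, sub_self] at h1
  have hj' : (1 - (j : ℝ) ^ 2) ≠ 0 := by
    intro h
    have h2 : (j : ℝ) ^ 2 = 1 := by linarith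
    have h3 : j ^ 2 = 1 := by exact_mod_cast h2
    exact hj (by nlinarith)
  exact (mul_eq_zero.mp h1).resolve_left hj'

lemma tg_one (a b α β : ℝ) :
    ∫ ψ in (0 : ℝ)..(2 * Real.pi), tg a b 1 ψ * tg α β 1 ψ = Real.pi * (a * α + b * β) := by
  have hd : ∀ ψ : ℝ, HasDerivAt (fun ψ => (a * α) * (ψ / 2 + Real.sin ψ * Real.cos ψ / 2) +
      (b * β) * (ψ / 2 - Real.sin ψ * Real.cos ψ / 2) +
      (a * β + b * α) * (Real.sin ψ ^ 2 / 2)) (tg a b 1 ψ * tg α β 1 ψ) ψ := by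
    intro ψ
    have hs := Real.hasDerivAt_sin ψ
    have hc := Real.hasDerivAt_cos ψ
    have h1 := ((hasDerivAt_id ψ).div_const 2).add ((hs.mul hc).div_const 2)
    have h2 := ((hasDerivAt_id ψ).div_const 2).sub ((hs.mul hc).div_const 2)
    have h3 := (hs.pow 2).div_const 2
    have h := ((h1.const_mul (a * α)).add (h2.const_mul (b * β))).add (h3.const_mul (a * β + b * α))
    refine h.congr_deriv ?_
    unfold tg
    have hsc := Real.sin_sq_add_cos_sq ψ
    push_cast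
    rw [one_mul]
    linear_combination (-(a * α) / 2 - b * β / 2) * hsc
  have h1 := intervalIntegral.integral_eq_sub_of_hasDerivAt (a := 0) (b := 2 * Real.pi)
    (fun ψ _ => hd ψ) (((tg_cont a b 1).mul (tg_cont α β 1)).intervalIntegrable _ _)
  rw [h1]
  simp
  ring

section gen

variable {κ : Type} [Fintype κ] {M : Type} [NormedAddCommGroup M] [NormedSpace ℝ M]

/-- The generators. -/
def gn (f : MvPolynomial κ ℝ) (a b : ℝ) (j : ℕ) (v : M) : ℝ → (κ → ℝ) → M :=
  fun ψ z => (MvPolynomial.eval z f * tg a b j ψ) • v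

lemma gn_der (f : MvPolynomial κ ℝ) (a b : ℝ) (j : ℕ) (v : M) (ψ : ℝ) (z : κ → ℝ) :
    HasDerivAt (fun s => gn f a b j v s z) (gn f (j * b) (-(j * a)) j v ψ z) ψ :=
  ((tg_der a b j ψ).const_mul _).smul_const v

lemma dp_gn (f : MvPolynomial κ ℝ) (a b : ℝ) (j : ℕ) (v : M) :
    dp (gn f a b j v) = gn f (j * b) (-(j * a)) j v := by
  funext ψ z
  exact (gn_der f a b j v ψ z).deriv

lemma gn_mem (f : MvPolynomial κ ℝ) (a b : ℝ) (j i d : ℕ) (v : M) (hf : f.IsHomogeneous d)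
    (hj : j + 2 * i = d) : gn f a b j v ∈ HG κ M d := by
  have h1 : (fun (ψ : ℝ) (z : κ → ℝ) => (MvPolynomial.eval z f * Real.cos (j * ψ)) • v) ∈
      HG κ M d := Submodule.subset_span ⟨f, j, i, v, hf, hj, Or.inl rfl⟩
  have h2 : (fun (ψ : ℝ) (z : κ → ℝ) => (MvPolynomial.eval z f * Real.sin (j * ψ)) • v) ∈
      HG κ M d := Submodule.subset_span ⟨f, j, i, v, hf, hj, Or.inr rfl⟩
  have h3 := Submodule.add_mem _ (Submodule.smul_mem _ a h1) (Submodule.smul_mem _ b h2)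
  have h4 : gn f a b j v =
      a • (fun (ψ : ℝ) (z : κ → ℝ) => (MvPolynomial.eval z f * Real.cos (j * ψ)) • v) +
      b • (fun (ψ : ℝ) (z : κ → ℝ) => (MvPolynomial.eval z f * Real.sin (j * ψ)) • v) := by
    funext ψ z
    simp only [gn, tg, Pi.add_apply, Pi.smul_apply, smul_smul]
    rw [← add_smul]
    congr 1
    ring
  rw [h4]
  exact h3

end gen

section wave

variable {H : Type} [NormedAddCommGroup H] [InnerProductSpace ℝ H] {m : ℕ}

lemma pw_add (φ : Fin m → H) (ψ : ℝ) (z z' : Fin m ⊕ Fin m → ℝ) :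
    pw φ ψ (z + z') = pw φ ψ z + pw φ ψ z' := by
  unfold pw
  rw [← Finset.sum_add_distrib]
  refine Finset.sum_congr rfl fun i _ => ?_
  simp only [Pi.add_apply]
  module

lemma pw_smul (φ : Fin m → H) (ψ c : ℝ) (z : Fin m ⊕ Fin m → ℝ) :
    pw φ ψ (c • z) = c • pw φ ψ z := by
  unfold pw
  rw [Finset.smul_sum]
  refine Finset.sum_congr rfl fun i _ => ?_
  simp only [Pi.smul_apply, smul_eq_mul]
  module

lemma pw_zero (φ : Fin m → H) (ψ : ℝ) : pw φ ψ 0 = 0 := by
  unfold pw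
  simp

lemma pw_cont (φ : Fin m → H) (z : Fin m ⊕ Fin m → ℝ) : Continuous fun ψ => pw φ ψ z := by
  unfold pw
  fun_prop

/-- The inner product of a vector with the wave. -/
lemma pw_inner (φ : Fin m → H) (h : H) (ψ : ℝ) (z : Fin m ⊕ Fin m → ℝ) :
    ⟪h, pw φ ψ z⟫_ℝ = tg (∑ i, z (Sum.inr i) * ⟪h, φ i⟫_ℝ)
      (-∑ i, z (Sum.inl i) * ⟪h, φ i⟫_ℝ) 1 ψ := by
  unfold pw tg
  rw [inner_sum, Finset.sum_mul, neg_mul, Finset.sum_mul, ← Finset.sum_neg_distrib,
    ← Finset.sum_add_distrib]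
  refine Finset.sum_congr rfl fun i _ => ?_
  rw [real_inner_smul_right]
  push_cast
  rw [one_mul]
  ring

/-- The conclusion, with continuity and differentiability. -/
def Con (e : ℕ) (S : H →L[ℝ] H) (ω : ℝ) (φ : Fin m → H)
    (R : ℝ → (Fin m ⊕ Fin m → ℝ) → H) : Prop :=
  (∀ z, Continuous fun ψ => R ψ z) ∧
  ∃ (F' : Fin m ⊕ Fin m → MvPolynomial (Fin m ⊕ Fin m) ℝ) (q : ℝ → (Fin m ⊕ Fin m → ℝ) → H),
    (∀ i, (F' i).IsHomogeneous (2 * e + 1)) ∧ q ∈ HG (Fin m ⊕ Fin m) H (2 * e + 1) ∧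
    (∀ ψ z, DifferentiableAt ℝ (fun s => q s z) ψ ∧ DifferentiableAt ℝ (fun s => dp q s z) ψ) ∧
    (∀ ψ z, (2 * ω) • pw φ ψ (vf F' z) + (ω ^ 2) • S (dp (dp q) ψ z) + q ψ z = - R ψ z) ∧
    ∀ z, 2 * ω * Real.pi * ∑ i, z i * vf F' z i =
      - ∫ ψ in (0 : ℝ)..(2 * Real.pi), ⟪R ψ z, pw φ ψ z⟫_ℝ

lemma con_gen (e : ℕ) (S : H →L[ℝ] H) (ω : ℝ) (φ : Fin m → H) (hω : 0 < ω)
    (hφ : Orthonormal ℝ φ) (hS : Slm S ω φ (2 * e + 1)) (f : MvPolynomial (Fin m ⊕ Fin m) ℝ)
    (j i : ℕ) (h : H) (a b : ℝ) (hf : f.IsHomogeneous (2 * e + 1)) (hj : j + 2 * i = 2 * e + 1) :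
    Con e S ω φ (gn f a b j h) := by
  have hcont : ∀ z, Continuous fun ψ => gn f a b j h ψ z := by
    intro z
    exact (continuous_const.mul (tg_cont a b j)).smul continuous_const
  refine ⟨hcont, ?_⟩
  have hdd : ∀ (v : H) (ψ : ℝ) (z : Fin m ⊕ Fin m → ℝ), dp (dp (gn f a b j v)) ψ z =
      (-(j : ℝ) ^ 2 * (MvPolynomial.eval z f * tg a b j ψ)) • v := by
    intro v ψ z
    rw [dp_gn, dp_gn]
    simp only [gn, tg]
    congr 1
    ring
  have hdif : ∀ (v : H) (ψ : ℝ) (z : Fin m ⊕ Fin m → ℝ),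
      DifferentiableAt ℝ (fun s => gn f a b j v s z) ψ ∧
      DifferentiableAt ℝ (fun s => dp (gn f a b j v) s z) ψ := by
    intro v ψ z
    refine ⟨(gn_der f a b j v ψ z).differentiableAt, ?_⟩
    rw [dp_gn]
    exact (gn_der f _ _ j v ψ z).differentiableAt
  have hint : ∀ z : Fin m ⊕ Fin m → ℝ,
      ∫ ψ in (0 : ℝ)..(2 * Real.pi), ⟪gn f a b j h ψ z, pw φ ψ z⟫_ℝ =
        MvPolynomial.eval z f * ∫ ψ in (0 : ℝ)..(2 * Real.pi), tg a b j ψ *
          tg (∑ i, z (Sum.inr i) * ⟪h, φ i⟫_ℝ) (-∑ i, z (Sum.inl i) * ⟪h, φ i⟫_ℝ) 1 ψ := by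
    intro z
    rw [← intervalIntegral.integral_const_mul]
    congr 1
    funext ψ
    unfold gn
    rw [real_inner_smul_left, pw_inner]
    ring
  by_cases hj1 : j = 1
  · subst hj1
    obtain ⟨v, hv⟩ := hS.one (h - ∑ i, ⟪h, φ i⟫_ℝ • φ i) (by
      intro l
      rw [inner_sub_left, sum_inner]
      simp only [real_inner_smul_left]
      rw [Finset.sum_eq_single l]
      · rw [real_inner_self_eq_norm_sq, hφ.1 l]
        ring
      · intro b _ hb
        rw [hφ.2 hb, mul_zero]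
      · intro hl
        exact absurd (Finset.mem_univ l) hl)
    refine ⟨Sum.elim (fun l => MvPolynomial.C (b * ⟪h, φ l⟫_ℝ / (2 * ω)) * f)
      (fun l => MvPolynomial.C (-(a * ⟪h, φ l⟫_ℝ / (2 * ω))) * f), gn f a b 1 (-v), ?_,
      gn_mem f a b 1 i _ _ hf hj, hdif (-v), ?_, ?_⟩
    · rintro (l | l)
      · simp only [Sum.elim_inl]
        have := (MvPolynomial.isHomogeneous_C (Fin m ⊕ Fin m) (b * ⟪h, φ l⟫_ℝ / (2 * ω))).mul hf
        rwa [zero_add] at this
      · simp only [Sum.elim_inr]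
        have := (MvPolynomial.isHomogeneous_C (Fin m ⊕ Fin m)
          (-(a * ⟪h, φ l⟫_ℝ / (2 * ω)))).mul hf
        rwa [zero_add] at this
    · intro ψ z
      rw [hdd]
      have h1 : (2 * ω) • pw φ ψ (vf (Sum.elim
          (fun l => MvPolynomial.C (b * ⟪h, φ l⟫_ℝ / (2 * ω)) * f)
          (fun l => MvPolynomial.C (-(a * ⟪h, φ l⟫_ℝ / (2 * ω))) * f)) z) =
          (-(MvPolynomial.eval z f * tg a b 1 ψ)) • ∑ l, ⟪h, φ l⟫_ℝ • φ l := by
        unfold pw
        rw [Finset.smul_sum, Finset.smul_sum]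
        refine Finset.sum_congr rfl fun l _ => ?_
        rw [smul_smul, smul_smul]
        congr 1
        simp only [vf, Sum.elim_inl, Sum.elim_inr, map_mul, MvPolynomial.eval_C, tg, Nat.cast_one,
          one_mul]
        field_simp
        ring
      rw [h1]
      simp only [gn, map_smul, map_neg]
      have h2 : h = v - (ω ^ 2) • S v + ∑ l, ⟪h, φ l⟫_ℝ • φ l := by
        rw [hv]; abel
      generalize hs : ∑ l, ⟪h, φ l⟫_ℝ • φ l = s at h2 ⊢
      rw [h2]
      push_cast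
      module
    · intro z
      rw [hint, tg_one, Fintype.sum_sum_type]
      simp only [vf, Sum.elim_inl, Sum.elim_inr, map_mul, MvPolynomial.eval_C]
      have e1 : ∑ l, z (Sum.inl l) * (b * ⟪h, φ l⟫_ℝ / (2 * ω) * MvPolynomial.eval z f) =
          b / (2 * ω) * MvPolynomial.eval z f * ∑ l, z (Sum.inl l) * ⟪h, φ l⟫_ℝ := by
        rw [Finset.mul_sum]
        exact Finset.sum_congr rfl fun l _ => by ring
      have e2 : ∑ l, z (Sum.inr l) * (-(a * ⟪h, φ l⟫_ℝ / (2 * ω)) * MvPolynomial.eval z f) =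
          -(a / (2 * ω)) * MvPolynomial.eval z f * ∑ l, z (Sum.inr l) * ⟪h, φ l⟫_ℝ := by
        rw [Finset.mul_sum]
        exact Finset.sum_congr rfl fun l _ => by ring
      rw [e1, e2]
      field_simp
      ring
  · have hodd : Odd j := by
      rw [Nat.odd_iff]
      omega
    have hj3 : 3 ≤ j := by
      rcases hodd with ⟨c, hc⟩
      omega
    obtain ⟨v, hv⟩ := hS.odd j hodd hj3 (by omega) h
    refine ⟨0, gn f a b j (-v), fun _ => MvPolynomial.isHomogeneous_zero _ _ _,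
      gn_mem f a b j i _ _ hf hj, hdif (-v), ?_, ?_⟩
    · intro ψ z
      have h0 : vf (0 : Fin m ⊕ Fin m → MvPolynomial (Fin m ⊕ Fin m) ℝ) z = 0 := by
        funext i
        simp [vf]
      rw [hdd, h0, pw_zero]
      simp only [gn, map_smul, map_neg]
      rw [← hv]
      module
    · intro z
      rw [hint, tg_orth a b _ _ j hj1]
      simp [vf]

theorem rez : RezStmt := by
  intro H _ _ m e S ω φ R hω hφ hS hR
  suffices hcon : Con e S ω φ R by
    obtain ⟨-, F', q, h1, h2, -, h3, h4⟩ := hcon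
    exact ⟨F', q, h1, h2, h3, h4⟩
  induction hR using Submodule.span_induction with
  | mem P hP =>
    obtain ⟨f, j, i, v, hf, hj, hP | hP⟩ := hP
    · have : P = gn f 1 0 j v := by
        rw [hP]
        funext ψ z
        simp [gn, tg]
      rw [this]
      exact con_gen e S ω φ hω hφ hS f j i v 1 0 hf hj
    · have : P = gn f 0 1 j v := by
        rw [hP]
        funext ψ z
        simp [gn, tg]
      rw [this]
      exact con_gen e S ω φ hω hφ hS f j i v 0 1 hf hj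
  | zero =>
    refine ⟨fun z => continuous_const, 0, 0, fun _ => MvPolynomial.isHomogeneous_zero _ _ _,
      Submodule.zero_mem _, fun ψ z => ⟨?_, ?_⟩, ?_, ?_⟩
    · exact differentiableAt_const _
    · have : dp (0 : ℝ → (Fin m ⊕ Fin m → ℝ) → H) = 0 := by
        funext ψ z
        simp [dp]
      rw [this]
      exact differentiableAt_const _
    · intro ψ z
      have h0 : vf (0 : Fin m ⊕ Fin m → MvPolynomial (Fin m ⊕ Fin m) ℝ) z = 0 := by
        funext i
        simp [vf]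
      have : dp (0 : ℝ → (Fin m ⊕ Fin m → ℝ) → H) = 0 := by
        funext ψ z
        simp [dp]
      rw [h0, pw_zero, this, this]
      simp
    · intro z
      simp [vf]
  | add x y hx hy ihx ihy =>
    obtain ⟨cx, F1, q1, a1, a2, a3, a4, a5⟩ := ihx
    obtain ⟨cy, F2, q2, b1, b2, b3, b4, b5⟩ := ihy
    have hd : dp (q1 + q2) = dp q1 + dp q2 := by
      funext ψ z
      exact deriv_add (a3 ψ z).1 (b3 ψ z).1
    have hd' : dp (dp (q1 + q2)) = dp (dp q1) + dp (dp q2) := by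
      rw [hd]
      funext ψ z
      exact deriv_add (a3 ψ z).2 (b3 ψ z).2
    have hvf : ∀ z, vf (F1 + F2) z = vf F1 z + vf F2 z := by
      intro z
      funext i
      simp [vf]
    refine ⟨fun z => (cx z).add (cy z), F1 + F2, q1 + q2, fun i => (a1 i).add (b1 i),
      Submodule.add_mem _ a2 b2, fun ψ z => ⟨(a3 ψ z).1.add (b3 ψ z).1, ?_⟩, ?_, ?_⟩
    · rw [hd]
      exact (a3 ψ z).2.add (b3 ψ z).2
    · intro ψ z
      rw [hd', hvf, pw_add]
      simp only [Pi.add_apply, map_add]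
      have e1 := a4 ψ z
      have e2 := b4 ψ z
      rw [neg_add, ← e1, ← e2]
      module
    · intro z
      rw [hvf]
      have e1 : ∀ ψ, ⟪(x + y) ψ z, pw φ ψ z⟫_ℝ = ⟪x ψ z, pw φ ψ z⟫_ℝ + ⟪y ψ z, pw φ ψ z⟫_ℝ := by
        intro ψ
        simp only [Pi.add_apply]
        rw [inner_add_left]
      simp only [e1]
      rw [intervalIntegral.integral_add, neg_add, ← a5 z, ← b5 z]
      · simp only [Pi.add_apply, mul_add, Finset.sum_add_distrib]
      · exact (((cx z).inner (pw_cont φ z)).intervalIntegrable _ _)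
      · exact (((cy z).inner (pw_cont φ z)).intervalIntegrable _ _)
  | smul c x hx ihx =>
    obtain ⟨cx, F1, q1, a1, a2, a3, a4, a5⟩ := ihx
    have hd : dp (c • q1) = c • dp q1 := by
      funext ψ z
      exact deriv_const_smul c (a3 ψ z).1
    have hd' : dp (dp (c • q1)) = c • dp (dp q1) := by
      rw [hd]
      funext ψ z
      exact deriv_const_smul c (a3 ψ z).2
    have hvf : ∀ z, vf (fun i => MvPolynomial.C c * F1 i) z = c • vf F1 z := by
      intro z
      funext i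
      simp [vf]
    refine ⟨fun z => (cx z).const_smul c, fun i => MvPolynomial.C c * F1 i, c • q1, fun i => ?_,
      Submodule.smul_mem _ c a2, fun ψ z => ⟨(a3 ψ z).1.const_smul c, ?_⟩, ?_, ?_⟩
    · have := (MvPolynomial.isHomogeneous_C (Fin m ⊕ Fin m) c).mul (a1 i)
      rwa [zero_add] at this
    · rw [hd]
      exact (a3 ψ z).2.const_smul c
    · intro ψ z
      rw [hd', hvf, pw_smul]
      simp only [Pi.smul_apply, map_smul]
      have e1 := a4 ψ z
      rw [← smul_neg, ← e1]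
      module
    · intro z
      rw [hvf]
      have e1 : ∀ ψ, ⟪(c • x) ψ z, pw φ ψ z⟫_ℝ = c * ⟪x ψ z, pw φ ψ z⟫_ℝ := by
        intro ψ
        simp only [Pi.smul_apply]
        rw [real_inner_smul_left]
      simp only [e1]
      rw [intervalIntegral.integral_const_mul, ← mul_neg, ← a5 z]
      simp only [Pi.smul_apply, smul_eq_mul, Finset.mul_sum]
      exact Finset.sum_congr rfl fun i _ => by ring

end wave

end

end Pool.Agent.BEF.H50
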