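import Pool.Agent.BEF.Stmts

/-!
# Squad BEF, module TIM: from the approximate solution to the solution
(adapted from `Helper91_BE01/ABS.lean`)
-/

namespace Pool.Agent.BEF.H50

open Set Filter Topology
open scoped InnerProductSpace
open Pool.Agent.BE01 Pool.Agent.BEF

noncomputable section

/-- The size of a function of a jet. -/
lemma bd_le {H : Type} [NormedAddCommGroup H] {t0 m N : ℝ} {f : Fin 3 → ℝ → H}
    (h : Bd t0 m N f) (k : Fin 3) : ∀ t > t0, ‖f k t‖ ≤ N * t ^ (-m) := by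
  intro t ht
  have h1 := h t ht
  have a := norm_nonneg (f 0 t)
  have b := norm_nonneg (f 1 t)
  have c := norm_nonneg (f 2 t)
  fin_cases k
  · show ‖f 0 t‖ ≤ _
    linarith
  · show ‖f 1 t‖ ≤ _
    linarith
  · show ‖f 2 t‖ ≤ _
    linarith

lemma sq_le_two {H : Type} [NormedAddCommGroup H] (a b : H) :
    ‖a‖ ^ 2 ≤ 2 * ‖b‖ ^ 2 + 2 * ‖a - b‖ ^ 2 := by
  have h1 : ‖a‖ ≤ ‖b‖ + ‖a - b‖ := by
    have := norm_add_le b (a - b)
    simpa using this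
  have h2 := norm_nonneg a
  nlinarith [sq_nonneg (‖b‖ - ‖a - b‖), norm_nonneg b, norm_nonneg (a - b)]

/-- TIM. -/
theorem tim (lia : LiaStmt) (lib : LibStmt) (lic : LicStmt) (nlp : NlpStmt) : TimStmt := by
  intro X Y H _ _ _ _ _ _ _ _ _ A W p a0 hp ha0 hapt
  obtain ⟨t1, c1, m, M, N1, c, C, w0, w1, w2, k, g, r, ht1, hc1, hm2, hc1m, hc, hw0, hw1, hw2, hM,
    hgs, hr, hrB, hg, hw0k, hSg, hr0, hE⟩ := hapt
  have hp' : (1 : ℝ) ≤ (p : ℝ) := by exact_mod_cast hp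
  have hpi : 1 / (p : ℝ) ≤ 1 := by
    rw [div_le_one (by linarith)]
    exact hp'
  have hm1 : 1 < m := by linarith
  obtain ⟨t0, ht01, N, f, hJ, hB, hf⟩ := nlp X Y H A W (2 * p + 1) a0 t1 m c1 M N1 w0 w1 w2 r
    (by omega) ha0 ht1 hm2 hc1 hc1m hw0 hw1 hw2 hM hgs hr hrB
  have ht0 : 1 ≤ t0 := le_trans ht1 ht01
  have ht0' : 0 < t0 := by linarith
  obtain ⟨hf0, hf1, hf2⟩ := hJ
  have c0 : ContinuousOn (f 0) (Ioi t0) := fun t ht => (hf0 t ht).continuousAt.continuousWithinAt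
  have c1' : ContinuousOn (f 1) (Ioi t0) := fun t ht => (hf1 t ht).continuousAt.continuousWithinAt
  have L0 := lic X Y H A W (f 0) (f 1) t0 m N ht0' hm1 c1' hf0 (bd_le hB 0) (bd_le hB 1)
  have L1 := lic X Y H A W (f 1) (f 2) t0 m N ht0' hm1 hf2 hf1 (bd_le hB 1) (bd_le hB 2)
  -- the function `wv (f 0)`
  have key : ∀ t > t0, A.e (- W.SX (f 1 t + wv W (f 2) t)) = wv W (f 0) t := by
    intro t ht
    obtain ⟨-, a2, a3, a4⟩ := L0 t ht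
    obtain ⟨-, b2, b3, b4⟩ := L1 t ht
    rw [map_neg, W.e_SX, add_comm, ← b2, b3, a4]
  have D0 : ∀ t > t0, HasDerivAt (fun s => wv W (f 0) s) (wv W (f 1) t) t := fun t ht =>
    lib H W.C (f 0) (f 1) t0 m N ht0' hm1 W.prp.C_le W.prp.C_cont c1' hf0 (bd_le hB 0)
      (bd_le hB 1) t ht
  have Lc := lia H W.C (f 1) t0 m N ht0' hm1 W.prp.C_le W.prp.C_cont c1' (bd_le hB 1)
  have Lc0 := lia H W.C (f 0) t0 m N ht0' hm1 W.prp.C_le W.prp.C_cont c0 (bd_le hB 0)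
  have Ls0 := lia H W.Sn (f 0) t0 m N ht0' hm1 W.prp.Sn_le W.prp.Sn_cont c0 (bd_le hB 0)
  -- `R (wv f1 + f0) = ws f0`
  have hR : ∀ t > t0, W.R (wv W (f 1) t + f 0 t) = ws W (f 0) t := by
    intro t ht
    obtain ⟨-, a2, a3, a4⟩ := L0 t ht
    apply W.prp.R_inj
    rw [W.prp.RR]
    have h1 := a2.symm.trans a3
    exact neg_injective h1
  obtain ⟨N', hN'⟩ : ∃ N' : ℝ, N' = N / (m - 1) := ⟨_, rfl⟩
  obtain ⟨t0', h1', h2'⟩ : ∃ t0' : ℝ, t0 ≤ t0' ∧ 8 * N' ^ 2 / c ≤ t0' :=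
    ⟨max t0 (8 * N' ^ 2 / c), le_max_left _ _, le_max_right _ _⟩
  refine ⟨t0', c / 4, 2 * C + 4 * N' ^ 2, fun t => W.S (g t) + wu W (f 0) t,
    fun t => w0 t - W.SX (f 1 t + wv W (f 2) t), fun t => k t - (f 1 t + wv W (f 2) t),
    fun t => A.e (w1 t) + wv W (f 1) t, fun t => g t - (wv W (f 1) t + f 0 t), by linarith,
    by positivity, ?_, ?_, ?_⟩
  · refine ContinuousOn.add ?_ (Lc.2.1.mono fun t ht => lt_of_le_of_lt h1' ht)
    intro t ht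
    have ht' : t > t1 := lt_of_le_of_lt (le_trans ht01 h1') ht
    exact ((A.e.hasFDerivAt.comp_hasDerivAt t (hw1 t ht')).continuousAt).continuousWithinAt
  · refine ContinuousOn.sub (hg.mono fun t ht => lt_of_le_of_lt (le_trans ht01 h1') ht) ?_
    exact (Lc.2.1.add c0).mono fun t ht => lt_of_le_of_lt h1' ht
  intro t ht'
  have ht : t > t0 := lt_of_le_of_lt h1' ht'
  have htt1 : t > t1 := lt_of_le_of_lt ht01 ht
  have ex : ∀ s > t0, A.e (w0 s - W.SX (f 1 s + wv W (f 2) s)) =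
      A.e (w0 s) + wv W (f 0) s := by
    intro s hs
    rw [map_sub, ← key s hs, map_neg, sub_eq_add_neg]
  obtain ⟨a1, a2, a3, a4⟩ := L0 t ht
  have hu : W.S (g t) + wu W (f 0) t = W.S (g t - (wv W (f 1) t + f 0 t)) := by
    rw [a2, map_sub, sub_eq_add_neg]
  refine ⟨?_, ?_, ?_, hu, ?_, ?_⟩
  · show HasDerivAt (fun t => W.S (g t) + wu W (f 0) t)
      (A.e (w0 t - W.SX (f 1 t + wv W (f 2) t))) t
    rw [ex t ht]
    exact (hSg t htt1).add a1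
  · have h1 : HasDerivAt (fun s => A.e (w0 s) + wv W (f 0) s) (A.e (w1 t) + wv W (f 1) t) t :=
      (A.e.hasFDerivAt.comp_hasDerivAt t (hw0 t htt1)).add (D0 t ht)
    refine h1.congr_of_eventuallyEq ?_
    filter_upwards [Ioi_mem_nhds ht] with s hs
    exact ex s hs
  · show w0 t - W.SX (f 1 t + wv W (f 2) t) = W.SX (k t - (f 1 t + wv W (f 2) t))
    rw [map_sub, ← hw0k t htt1]
  · show A.e (w1 t) + wv W (f 1) t + (g t - (wv W (f 1) t + f 0 t)) +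
      a0 • A.e ((w0 t - W.SX (f 1 t + wv W (f 2) t)) ^ (2 * p + 1)) = 0
    have h1 := hf t ht
    rw [hr0 t htt1, map_sub, smul_sub] at h1
    rw [h1]
    abel
  -- the energy
  have hRh : W.R (g t - (wv W (f 1) t + f 0 t)) = W.R (g t) - ws W (f 0) t := by
    rw [map_sub, hR t ht]
  have hSS : ⟪g t - (wv W (f 1) t + f 0 t), W.S (g t - (wv W (f 1) t + f 0 t))⟫_ℝ =
      ‖W.R (g t) - ws W (f 0) t‖ ^ 2 := by
    rw [← W.prp.RR, ← W.prp.R_symm, hRh, real_inner_self_eq_norm_sq]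
  have hex : A.e (w0 t - W.SX (f 1 t + wv W (f 2) t)) = A.e (w0 t) + wv W (f 0) t := ex t ht
  have t1' : 1 < t := lt_of_le_of_lt ht0 ht
  have tpos : 0 < t := by linarith
  have b1 : ‖wv W (f 0) t‖ ≤ N' * t ^ (1 - m) := by rw [hN']; exact Lc0.2.2 t ht
  have b2 : ‖ws W (f 0) t‖ ≤ N' * t ^ (1 - m) := by rw [hN']; exact Ls0.2.2 t ht
  have hpow : (N' * t ^ (1 - m)) ^ 2 ≤ N' ^ 2 * t⁻¹ * t ^ (-(1 / (p : ℝ))) := by
    rw [mul_pow, mul_assoc]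
    refine mul_le_mul_of_nonneg_left ?_ (sq_nonneg _)
    rw [← Real.rpow_neg_one, ← Real.rpow_add tpos, ← Real.rpow_natCast, ← Real.rpow_mul tpos.le]
    refine Real.rpow_le_rpow_of_exponent_le t1'.le ?_
    push_cast
    linarith
  have q1 : ‖wv W (f 0) t‖ ^ 2 ≤ N' ^ 2 * t⁻¹ * t ^ (-(1 / (p : ℝ))) :=
    le_trans (pow_le_pow_left₀ (norm_nonneg _) b1 2) hpow
  have q2 : ‖ws W (f 0) t‖ ^ 2 ≤ N' ^ 2 * t⁻¹ * t ^ (-(1 / (p : ℝ))) :=
    le_trans (pow_le_pow_left₀ (norm_nonneg _) b2 2) hpow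
  have hT : 0 < t ^ (-(1 / (p : ℝ))) := Real.rpow_pos_of_pos tpos _
  obtain ⟨e1, e2⟩ := hE t htt1
  have s1 := sq_le_two (A.e (w0 t) + wv W (f 0) t) (A.e (w0 t))
  have s2 := sq_le_two (W.R (g t) - ws W (f 0) t) (W.R (g t))
  have s3 := sq_le_two (A.e (w0 t)) (A.e (w0 t) + wv W (f 0) t)
  have s4 := sq_le_two (W.R (g t)) (W.R (g t) - ws W (f 0) t)
  have d1 : ‖A.e (w0 t) + wv W (f 0) t - A.e (w0 t)‖ = ‖wv W (f 0) t‖ := by
    rw [add_sub_cancel_left]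
  have d2 : ‖W.R (g t) - ws W (f 0) t - W.R (g t)‖ = ‖ws W (f 0) t‖ := by
    rw [sub_sub_cancel_left, norm_neg]
  have d3 : ‖A.e (w0 t) - (A.e (w0 t) + wv W (f 0) t)‖ = ‖wv W (f 0) t‖ := by
    rw [sub_add_cancel_left, norm_neg]
  have d4 : ‖W.R (g t) - (W.R (g t) - ws W (f 0) t)‖ = ‖ws W (f 0) t‖ := by
    rw [sub_sub_cancel]
  rw [d1] at s1
  rw [d2] at s2
  rw [d3] at s3
  rw [d4] at s4
  refine ⟨?_, ?_⟩
  · show c / 4 * t ^ (-(1 / (p : ℝ))) ≤ ‖A.e (w0 t - W.SX (f 1 t + wv W (f 2) t))‖ ^ 2 +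
      ⟪g t - (wv W (f 1) t + f 0 t), W.S (g t - (wv W (f 1) t + f 0 t))⟫_ℝ
    rw [hSS, hex]
    have h3 : 2 * (N' ^ 2 * t⁻¹) ≤ c / 4 := by
      have h4 : 8 * N' ^ 2 / c ≤ t := le_trans h2' (le_of_lt ht')
      rw [div_le_iff₀ hc] at h4
      rw [← mul_assoc, ← div_eq_mul_inv, div_le_iff₀ tpos]
      nlinarith
    nlinarith [mul_le_mul_of_nonneg_right h3 hT.le]
  · show ‖A.e (w0 t - W.SX (f 1 t + wv W (f 2) t))‖ ^ 2 +
      ⟪g t - (wv W (f 1) t + f 0 t), W.S (g t - (wv W (f 1) t + f 0 t))⟫_ℝ ≤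
      (2 * C + 4 * N' ^ 2) * t ^ (-(1 / (p : ℝ)))
    rw [hSS, hex]
    have h3 : N' ^ 2 * t⁻¹ ≤ N' ^ 2 := by
      have : t⁻¹ ≤ 1 := inv_le_one_of_one_le₀ t1'.le
      nlinarith [sq_nonneg N']
    nlinarith [mul_le_mul_of_nonneg_right h3 hT.le]

end

end Pool.Agent.BEF.H50
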